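import Pool.Agent.Y317.CB.El

/-!
# Closed 3-braids without full twists: the real integrals (RHOY, project CB3-E of helper472)
-/

set_option autoImplicit false

namespace Pool.Agent.Y317.CB

open Filter Finset Topology MeasureTheory GapVol EvenVol EvenVol.LobIneq
open Pool.Agent.W711.HT Pool.Agent.W688.HT Pool.Agent.Y472 Pool.Agent.Y105.CB
open scoped Real

lemma el_pi (y θ : ℝ) : el y (π + θ) = el y (π - θ) := by
  unfold el
  rw [Real.cos_pi_sub, add_comm, Real.cos_add_pi]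

lemma el_sub_int (y a b : ℝ) : IntervalIntegrable (fun θ => el y (π - θ)) volume a b := by
  have := (el_int y (π - a) (π - b)).comp_sub_left π
  convert this using 2 <;> ring

lemma RG_pi (y δ : ℝ) :
    RG y π δ = (∫ θ in (0:ℝ)..(2 * π * δ), (el y (π - θ) - el 0 θ)) / (2 * π) := by
  unfold RG
  rw [PR_fold, intervalIntegral.integral_sub (el_sub_int y _ _) (el_int 0 _ _)]
  have h : ∫ θ in (0:ℝ)..(2 * π * δ), (el y (π + θ) + el y (π - θ)) =
      2 * ∫ θ in (0:ℝ)..(2 * π * δ), el y (π - θ) := by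
    rw [← intervalIntegral.integral_const_mul]
    congr 1
    funext θ
    rw [el_pi]
    ring
  rw [h]
  unfold Q0
  field_simp
  ring

lemma RG_zero (y δ : ℝ) :
    RG y 0 δ = (∫ θ in (0:ℝ)..(2 * π * δ), (el y θ - el 0 θ)) / (2 * π) := by
  unfold RG
  rw [PR_fold, intervalIntegral.integral_sub (el_int y _ _) (el_int 0 _ _)]
  have h : ∫ θ in (0:ℝ)..(2 * π * δ), (el y (0 + θ) + el y (0 - θ)) =
      2 * ∫ θ in (0:ℝ)..(2 * π * δ), el y θ := by
    rw [← intervalIntegral.integral_const_mul]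
    congr 1
    funext θ
    rw [zero_add, zero_sub, el_even]
    ring
  rw [h]
  unfold Q0
  field_simp
  ring

/-- integrand of the growth rate -/
noncomputable def hh (y θ : ℝ) : ℝ := 2 * el 0 (π - θ) - el 0 θ - el y θ

lemma hh_int (y a b : ℝ) : IntervalIntegrable (hh y) volume a b :=
  (((el_sub_int 0 a b).const_mul 2).sub (el_int 0 a b)).sub (el_int y a b)

/-- the growth rate at `(0, 0, i y)` -/
noncomputable def HH (y δ : ℝ) : ℝ := 2 * bb δ 0 + y / 2 - RG y 0 δ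

lemma HH_eq (y δ : ℝ) : HH y δ = y / 2 + (∫ θ in (0:ℝ)..(2 * π * δ), hh y θ) / (2 * π) := by
  unfold HH
  have h := bb_RG 0 δ
  rw [sub_zero] at h
  have i1 := el_sub_int 0 0 (2 * π * δ)
  have i2 := el_int 0 0 (2 * π * δ)
  have i3 := el_int y 0 (2 * π * δ)
  rw [h, RG_pi, RG_zero, intervalIntegral.integral_sub i1 i2, intervalIntegral.integral_sub i3 i2]
  have e : ∫ θ in (0:ℝ)..(2 * π * δ), hh y θ = 2 * (∫ θ in (0:ℝ)..(2 * π * δ), el 0 (π - θ)) -
      (∫ θ in (0:ℝ)..(2 * π * δ), el 0 θ) - ∫ θ in (0:ℝ)..(2 * π * δ), el y θ := by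
    unfold hh
    rw [intervalIntegral.integral_sub ((i1.const_mul 2).sub i2) i3,
      intervalIntegral.integral_sub (i1.const_mul 2) i2, intervalIntegral.integral_const_mul]
  rw [e]
  field_simp
  ring

lemma E0_HH (y : ℝ) : E0 y = HH y (dY y) := by
  unfold E0 HH
  have h := rhc_RG y 0 (dY y)
  rw [Complex.ofReal_zero, zero_add] at h
  rw [h]

lemma HH_sub (y δ δ' : ℝ) :
    HH y δ' - HH y δ = (∫ θ in (2 * π * δ)..(2 * π * δ'), hh y θ) / (2 * π) := by
  rw [HH_eq, HH_eq]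
  have h := intervalIntegral.integral_add_adjacent_intervals (hh_int y 0 (2 * π * δ))
    (hh_int y (2 * π * δ) (2 * π * δ'))
  rw [← h]
  ring

lemma hh_eq {y θ : ℝ} : hh y θ = 2 * Real.log (1 + Real.cos θ) - Real.log (1 - Real.cos θ) -
    Real.log (Real.cosh y - Real.cos θ) := by
  unfold hh el
  rw [Real.cosh_zero, Real.cos_pi_sub, sub_neg_eq_add]

lemma cos_lt_one' {θ : ℝ} (h0 : 0 < θ) (h1 : θ < π) : Real.cos θ < 1 ∧ -1 < Real.cos θ := by
  constructor
  · rw [← Real.cos_zero]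
    exact Real.cos_lt_cos_of_nonneg_of_le_pi le_rfl h1.le h0
  · rw [← Real.cos_pi]
    exact Real.cos_lt_cos_of_nonneg_of_le_pi h0.le le_rfl h1

lemma hh_pos {y θ : ℝ} (h0 : 0 < θ) (h1 : θ < π)
    (h : (Real.cosh y - 1) / (3 + Real.cosh y) < Real.cos θ) : 0 < hh y θ := by
  have hY := Real.one_le_cosh y
  obtain ⟨c1, c2⟩ := cos_lt_one' h0 h1
  have pA : 0 < 1 + Real.cos θ := by linarith
  have pB : 0 < 1 - Real.cos θ := by linarith
  have pC : 0 < Real.cosh y - Real.cos θ := by linarith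
  rw [div_lt_iff₀ (by linarith)] at h
  have k : (1 - Real.cos θ) * (Real.cosh y - Real.cos θ) < (1 + Real.cos θ) ^ 2 := by nlinarith
  have l := Real.log_lt_log (mul_pos pB pC) k
  rw [Real.log_mul pB.ne' pC.ne', Real.log_pow] at l
  push_cast at l
  rw [hh_eq]
  linarith

lemma hh_neg {y θ : ℝ} (h0 : 0 < θ) (h1 : θ < π)
    (h : Real.cos θ < (Real.cosh y - 1) / (3 + Real.cosh y)) : 0 < -hh y θ := by
  have hY := Real.one_le_cosh y
  obtain ⟨c1, c2⟩ := cos_lt_one' h0 h1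
  have pA : 0 < 1 + Real.cos θ := by linarith
  have pB : 0 < 1 - Real.cos θ := by linarith
  have pC : 0 < Real.cosh y - Real.cos θ := by linarith
  rw [lt_div_iff₀ (by linarith)] at h
  have k : (1 + Real.cos θ) ^ 2 < (1 - Real.cos θ) * (Real.cosh y - Real.cos θ) := by nlinarith
  have l := Real.log_lt_log (pow_pos pA 2) k
  rw [Real.log_mul pB.ne' pC.ne', Real.log_pow] at l
  push_cast at l
  rw [hh_eq]
  linarith

lemma Yq {y : ℝ} (hy : 0 < y) : 0 < (Real.cosh y - 1) / (3 + Real.cosh y) ∧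
    (Real.cosh y - 1) / (3 + Real.cosh y) < 1 := by
  have hY := Real.one_lt_cosh.2 hy.ne'
  constructor
  · apply div_pos <;> linarith
  · rw [div_lt_one (by linarith)]
    linarith

lemma dY_eq (y : ℝ) : 2 * π * dY y = Real.arccos ((Real.cosh y - 1) / (3 + Real.cosh y)) := by
  unfold dY
  field_simp

lemma cos_dY {y : ℝ} (hy : 0 < y) :
    Real.cos (2 * π * dY y) = (Real.cosh y - 1) / (3 + Real.cosh y) := by
  rw [dY_eq, Real.cos_arccos (by linarith [(Yq hy).1]) (Yq hy).2.le]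

lemma dY_bd {y : ℝ} (hy : 0 < y) : 0 < dY y ∧ dY y < 1 / 4 := by
  have hπ := Real.pi_pos
  have h1 := dY_eq y
  have h2 : 0 < Real.arccos ((Real.cosh y - 1) / (3 + Real.cosh y)) :=
    Real.arccos_pos.2 (Yq hy).2
  have h3 : Real.arccos ((Real.cosh y - 1) / (3 + Real.cosh y)) < π / 2 :=
    Real.arccos_lt_pi_div_two.2 (Yq hy).1
  rw [← h1] at h2 h3
  constructor
  · by_contra hc
    push Not at hc
    have : 2 * π * dY y ≤ 0 := mul_nonpos_of_nonneg_of_nonpos (by positivity) hc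
    linarith
  · by_contra hc
    push Not at hc
    nlinarith

lemma J_pos {y s t : ℝ} (hy : 0 < y) (h0 : 0 ≤ s) (h1 : s < t) (h2 : t ≤ dY y) :
    0 < ∫ θ in (2 * π * s)..(2 * π * t), hh y θ := by
  have hπ := Real.pi_pos
  obtain ⟨d1, d2⟩ := dY_bd hy
  have hst : 2 * π * s < 2 * π * t := by
    apply mul_lt_mul_of_pos_left h1 (by positivity)
  refine intervalIntegral.intervalIntegral_pos_of_pos_on (hh_int y _ _) ?_ hst
  intro θ hθ
  have k1 : 0 ≤ 2 * π * s := by positivity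
  have k2 : 2 * π * t ≤ 2 * π * dY y := mul_le_mul_of_nonneg_left h2 (by positivity)
  have k3 : 2 * π * dY y < π := by nlinarith
  refine hh_pos (by linarith [hθ.1]) (by linarith [hθ.2]) ?_
  rw [← cos_dY hy]
  exact Real.cos_lt_cos_of_nonneg_of_le_pi (by linarith [hθ.1]) k3.le (by linarith [hθ.2])

lemma J_neg {y s t : ℝ} (hy : 0 < y) (h0 : dY y ≤ s) (h1 : s < t) (h2 : t ≤ 1 / 2) :
    ∫ θ in (2 * π * s)..(2 * π * t), hh y θ < 0 := by
  have hπ := Real.pi_pos
  obtain ⟨d1, d2⟩ := dY_bd hy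
  have hst : 2 * π * s < 2 * π * t := by
    apply mul_lt_mul_of_pos_left h1 (by positivity)
  have key : 0 < ∫ θ in (2 * π * s)..(2 * π * t), -hh y θ := by
    refine intervalIntegral.intervalIntegral_pos_of_pos_on (hh_int y _ _).neg ?_ hst
    intro θ hθ
    have k1 : 2 * π * dY y ≤ 2 * π * s := mul_le_mul_of_nonneg_left h0 (by positivity)
    have k2 : 2 * π * t ≤ π := by nlinarith
    have k3 : 0 < 2 * π * dY y := by positivity
    refine hh_neg (by linarith [hθ.1]) (by linarith [hθ.2]) ?_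
    rw [← cos_dY hy]
    exact Real.cos_lt_cos_of_nonneg_of_le_pi k3.le (by linarith [hθ.2]) (by linarith [hθ.1])
  rw [intervalIntegral.integral_neg] at key
  linarith

lemma HH_inc {y s t : ℝ} (hy : 0 < y) (h0 : 0 ≤ s) (h1 : s < t) (h2 : t ≤ dY y) :
    HH y s < HH y t := by
  have h := HH_sub y s t
  have := div_pos (J_pos hy h0 h1 h2) (by positivity : (0 : ℝ) < 2 * π)
  linarith

lemma HH_dec {y s t : ℝ} (hy : 0 < y) (h0 : dY y ≤ s) (h1 : s < t) (h2 : t ≤ 1 / 2) :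
    HH y t < HH y s := by
  have h := HH_sub y s t
  have := div_neg_of_neg_of_pos (J_neg hy h0 h1 h2) (by positivity : (0 : ℝ) < 2 * π)
  linarith

lemma HH_le {y δ : ℝ} (hy : 0 < y) (h0 : 0 ≤ δ) (h1 : δ ≤ 1 / 2) : HH y δ ≤ E0 y := by
  rw [E0_HH]
  rcases lt_trichotomy δ (dY y) with h | h | h
  · exact (HH_inc hy h0 h le_rfl).le
  · rw [h]
  · exact (HH_dec hy le_rfl h h1).le

lemma HH_gap {y : ℝ} (hy : 0 < y) {ρ : ℝ} (hρ : 0 < ρ) : ∃ κ : ℝ, 0 < κ ∧ ∀ δ : ℝ, 0 ≤ δ →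
    δ ≤ 1 / 2 → ρ ≤ |δ - dY y| → HH y δ ≤ E0 y - κ := by
  obtain ⟨κ1, hκ1, h1⟩ : ∃ κ : ℝ, 0 < κ ∧ ∀ δ : ℝ, 0 ≤ δ → δ ≤ dY y - ρ →
      HH y δ ≤ E0 y - κ := by
    rcases le_or_gt 0 (dY y - ρ) with h | h
    · refine ⟨HH y (dY y) - HH y (dY y - ρ), sub_pos.2 (HH_inc hy h (by linarith) le_rfl), ?_⟩
      intro δ hδ0 hδ
      rw [E0_HH]
      have : HH y δ ≤ HH y (dY y - ρ) := by
        rcases hδ.eq_or_lt with e | e
        · rw [e]
        · exact (HH_inc hy hδ0 e (by linarith)).le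
      linarith
    · exact ⟨1, one_pos, fun δ hδ0 hδ => by linarith⟩
  obtain ⟨κ2, hκ2, h2⟩ : ∃ κ : ℝ, 0 < κ ∧ ∀ δ : ℝ, δ ≤ 1 / 2 → dY y + ρ ≤ δ →
      HH y δ ≤ E0 y - κ := by
    rcases le_or_gt (dY y + ρ) (1 / 2) with h | h
    · refine ⟨HH y (dY y) - HH y (dY y + ρ), sub_pos.2 (HH_dec hy le_rfl (by linarith) h), ?_⟩
      intro δ hδ0 hδ
      rw [E0_HH]
      have : HH y δ ≤ HH y (dY y + ρ) := by
        rcases hδ.eq_or_lt with e | e
        · rw [e]
        · exact (HH_dec hy (by linarith) e hδ0).le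
      linarith
    · exact ⟨1, one_pos, fun δ hδ0 hδ => by linarith⟩
  refine ⟨min κ1 κ2, lt_min hκ1 hκ2, ?_⟩
  intro δ h0 h3 h4
  rcases le_abs.1 h4 with h5 | h5
  · have := h2 δ h3 (by linarith)
    linarith [min_le_right κ1 κ2]
  · have := h1 δ h0 (by linarith)
    linarith [min_le_left κ1 κ2]

lemma el_ge {y θ : ℝ} (h : Real.sin θ ≠ 0) : el 0 θ ≤ el y θ := by
  have h1 := cpos_of_sin (y := 0) h
  unfold el
  rw [Real.cosh_zero] at h1 ⊢
  exact Real.log_le_log h1 (by linarith [Real.one_le_cosh y])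

/-- `rhc ≤ y / 2` on the axis for `δ ≤ 1 / 2` -/
lemma RG_zero_le {y δ : ℝ} (hy : 0 ≤ y) (h1 : δ ≤ 1 / 2) : RG y 0 δ ≤ y / 2 := by
  have hπ := Real.pi_pos
  have h := RG_half hy 0
  rw [← h, RG_zero, RG_zero]
  apply div_le_div_of_nonneg_right _ (by positivity)
  have i : ∀ a b : ℝ, IntervalIntegrable (fun θ => el y θ - el 0 θ) volume a b :=
    fun a b => (el_int y a b).sub (el_int 0 a b)
  rw [← intervalIntegral.integral_add_adjacent_intervals (i 0 (2 * π * δ))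
    (i (2 * π * δ) (2 * π * (1 / 2)))]
  have : 0 ≤ ∫ θ in (2 * π * δ)..(2 * π * (1 / 2)), (el y θ - el 0 θ) := by
    apply intervalIntegral.integral_nonneg_of_ae
    · apply mul_le_mul_of_nonneg_left h1 (by positivity)
    · filter_upwards [sin_ae_ne] with θ hθ
      exact sub_nonneg.2 (el_ge hθ)
  linarith

/-- growth at `χ = π + i y` -/
lemma RG_pi_le {y δ : ℝ} (hy : 0 ≤ y) (h1 : δ ≤ 1 / 2) : RG y π δ - y / 2 ≤ bb δ 0 := by
  have hπ := Real.pi_pos
  have h := RG_half hy π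
  have h0 := RG_half le_rfl π
  have hb := bb_RG 0 δ
  rw [sub_zero] at hb
  have e1 : ∀ y : ℝ, RG y π (1 / 2) - RG y π δ =
      (∫ θ in (2 * π * δ)..(2 * π * (1 / 2)), (el y (π - θ) - el 0 θ)) / (2 * π) := by
    intro y
    have i : ∀ a b : ℝ, IntervalIntegrable (fun θ => el y (π - θ) - el 0 θ) volume a b :=
      fun a b => (el_sub_int y a b).sub (el_int 0 a b)
    rw [RG_pi, RG_pi, ← intervalIntegral.integral_add_adjacent_intervals (i 0 (2 * π * δ))
      (i (2 * π * δ) (2 * π * (1 / 2)))]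
    ring
  have e2 : RG 0 π (1 / 2) - RG 0 π δ ≤ RG y π (1 / 2) - RG y π δ := by
    rw [e1, e1]
    apply div_le_div_of_nonneg_right _ (by positivity)
    apply intervalIntegral.integral_mono_ae
    · apply mul_le_mul_of_nonneg_left h1 (by positivity)
    · exact (el_sub_int 0 _ _).sub (el_int 0 _ _)
    · exact (el_sub_int y _ _).sub (el_int 0 _ _)
    · filter_upwards [ae_sub π] with θ hθ
      have := el_ge (y := y) hθ
      linarith
  rw [hb]
  linarith

lemma bb_q : bb (1 / 4) 0 = bet := by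
  rw [bb_FF, bet_eq]
  unfold FF
  rw [show π - π * (1 / 4) + (0 / 2 + π / 2) = π / 4 + π by ring, lob_per,
    show π - π * (1 / 4) - (0 / 2 + π / 2) = π / 4 by ring,
    show π - π * (1 / 4) = 3 * π / 4 by ring, lob_34]
  ring

lemma E0_ge {y : ℝ} (hy : 0 < y) : 2 * bet ≤ E0 y := by
  have h1 := HH_le hy (δ := 1 / 4) (by norm_num) (by norm_num)
  have h2 := RG_zero_le hy.le (δ := 1 / 4) (by norm_num)
  unfold HH at h1
  rw [bb_q] at h1
  linarith

lemma bb_le_bet {δ x : ℝ} : bb δ x ≤ bet := by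
  rw [bb_FF, bet_eq]
  exact div_le_div_of_nonneg_right (FF_le _ _) Real.pi_pos.le

lemma bb_nonneg {δ : ℝ} (h0 : 0 ≤ δ) (h1 : δ ≤ 1 / 2) : 0 ≤ bb δ 0 := by
  have hπ := Real.pi_pos
  rw [bb_FF]
  exact div_nonneg (FF_nonneg (by nlinarith) (by nlinarith) (by positivity) (by linarith)) hπ.le

lemma bb_nonpos {δ : ℝ} (h0 : 1 / 2 ≤ δ) (h1 : δ ≤ 1) : bb δ 0 ≤ 0 := by
  have hπ := Real.pi_pos
  rw [bb_FF]
  have := FF_nonpos (a := π - π * δ) (b := 0 / 2 + π / 2) (by nlinarith) (by nlinarith)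
    (by positivity) (by linarith)
  exact div_nonpos_of_nonpos_of_nonneg this hπ.le

/-- RHOY -/
theorem rhoy : S_RHOY := by
  intro y hy _
  have hπ := Real.pi_pos
  have hY := Real.one_le_cosh y
  obtain ⟨d1, d2⟩ := dY_bd hy
  refine ⟨E0_ge hy, ?_⟩
  have hrho := rho
  obtain ⟨_, _, _, _, _, _, h3, _⟩ := hrho
  -- the neighbourhood of `dY`
  set ρ' : ℝ := min (dY y / 2) (1 / 4 - dY y) with hρ'
  have hρ0 : 0 < ρ' := lt_min (by linarith) (by linarith)
  obtain ⟨κ0, hκ0, hgap⟩ := HH_gap hy hρ0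
  set s0 : ℝ := Real.sin (π * dY y) with hs0
  have hs0' : 0 < s0 := Real.sin_pos_of_pos_of_lt_pi (by positivity) (by nlinarith)
  have hs1 : s0 ≤ 1 := Real.sin_le_one _
  set cc : ℝ := s0 * (2 / π ^ 2) / (2 * π * (Real.cosh y + 1)) with hcc
  have hcc0 : 0 < cc := by positivity
  set ρs : ℝ := min 1 (κ0 / 3) with hρs
  have hρs0 : 0 < ρs := lt_min one_pos (by positivity)
  have hρs1 : ρs ≤ 1 := min_le_left _ _
  have hρs2 : ρs ≤ κ0 / 3 := min_le_right _ _
  set c₂ : ℝ := min cc 1 with hc₂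
  have hc0 : 0 < c₂ := lt_min hcc0 one_pos
  have hc1 : c₂ ≤ cc := min_le_left _ _
  have hc2 : c₂ ≤ 1 := min_le_right _ _
  -- basic facts
  have hm : ∀ x : ℝ, c₂ * min |x| ρs ^ 2 ≤ κ0 / 3 := by
    intro x
    have h0 : 0 ≤ min |x| ρs := le_min (abs_nonneg x) hρs0.le
    have h1 : min |x| ρs ≤ ρs := min_le_right _ _
    have h2 : min |x| ρs ^ 2 ≤ ρs := by nlinarith
    have h3 : 0 ≤ min |x| ρs ^ 2 := by positivity
    nlinarith
  have hm0 : ∀ x : ℝ, 0 ≤ c₂ * min |x| ρs ^ 2 := fun x => by positivity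
  have hupper : ∀ δ x x' χ : ℝ, 0 ≤ δ → δ ≤ 1 / 2 → |x| ≤ π → |x'| ≤ π → |χ| ≤ π →
      bb δ x + bb δ x' + y / 2 - rhc δ (χ + y * Complex.I) ≤ HH y δ := by
    intro δ x x' χ h0 h1 hx hx' hχ
    have k := sin_nn h0 h1
    have b1 := bb_upper hx h0 h1
    have b2 := bb_upper hx' h0 h1
    have b3 := RG_lower y hχ h0 h1
    have n1 : 0 ≤ Real.sin (2 * π * δ) * (1 - Real.cos x) / (4 * π) :=
      div_nonneg (mul_nonneg k (by linarith [Real.cos_le_one x])) (by positivity)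
    have n2 : 0 ≤ Real.sin (2 * π * δ) * (1 - Real.cos x') / (4 * π) :=
      div_nonneg (mul_nonneg k (by linarith [Real.cos_le_one x'])) (by positivity)
    have n3 : 0 ≤ Real.sin (2 * π * δ) * (1 - Real.cos χ) / (2 * π * (Real.cosh y + 1)) :=
      div_nonneg (mul_nonneg k (by linarith [Real.cos_le_one χ])) (by positivity)
    rw [rhc_RG]
    unfold HH
    linarith
  have h5 : ∀ δ x x' χ : ℝ, 0 ≤ δ → δ ≤ 1 / 2 → |x| ≤ π → |x'| ≤ π → |χ| ≤ π →
      bb δ x + bb δ x' + y / 2 - rhc δ (χ + y * Complex.I) ≤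
      E0 y - c₂ * min |x| ρs ^ 2 - c₂ * min |x'| ρs ^ 2 - c₂ * min |χ| ρs ^ 2 := by
    intro δ x x' χ h0 h1 hx hx' hχ
    rcases le_or_gt ρ' |δ - dY y| with hd | hd
    · have k1 := hupper δ x x' χ h0 h1 hx hx' hχ
      have k2 := hgap δ h0 h1 hd
      linarith [hm x, hm x', hm χ]
    · have hd' := abs_lt.1 hd
      have r1 : ρ' ≤ dY y / 2 := min_le_left _ _
      have r2 : ρ' ≤ 1 / 4 - dY y := min_le_right _ _
      have hs : s0 ≤ Real.sin (2 * π * δ) := by
        apply Real.sin_le_sin_of_le_of_le_pi_div_two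
        · nlinarith
        · nlinarith
        · nlinarith
      have quad : ∀ z : ℝ, |z| ≤ π → c₂ * min |z| ρs ^ 2 * (2 * π * (Real.cosh y + 1)) ≤
          Real.sin (2 * π * δ) * (1 - Real.cos z) := by
        intro z hz
        have q1 := Real.cos_le_one_sub_mul_cos_sq hz
        have q2 : min |z| ρs ^ 2 ≤ z ^ 2 := by
          rw [← sq_abs z]
          exact pow_le_pow_left₀ (le_min (abs_nonneg z) hρs0.le) (min_le_left _ _) 2
        calc c₂ * min |z| ρs ^ 2 * (2 * π * (Real.cosh y + 1)) ≤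
            cc * z ^ 2 * (2 * π * (Real.cosh y + 1)) := by gcongr
          _ = s0 * (2 / π ^ 2 * z ^ 2) := by
            rw [hcc]
            field_simp
          _ ≤ Real.sin (2 * π * δ) * (1 - Real.cos z) := by
            apply mul_le_mul hs (by linarith) (by positivity) (by linarith)
      have quad1 : ∀ z : ℝ, |z| ≤ π → c₂ * min |z| ρs ^ 2 ≤
          Real.sin (2 * π * δ) * (1 - Real.cos z) / (2 * π * (Real.cosh y + 1)) := by
        intro z hz
        rw [le_div_iff₀ (by positivity)]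
        exact quad z hz
      have quad2 : ∀ z : ℝ, |z| ≤ π → c₂ * min |z| ρs ^ 2 ≤
          Real.sin (2 * π * δ) * (1 - Real.cos z) / (4 * π) := by
        intro z hz
        rw [le_div_iff₀ (by positivity)]
        refine le_trans ?_ (quad z hz)
        apply mul_le_mul_of_nonneg_left _ (hm0 z)
        nlinarith
      have b1 := bb_upper hx h0 h1
      have b2 := bb_upper hx' h0 h1
      have b3 := RG_lower y hχ h0 h1
      have b4 := HH_le hy h0 h1
      unfold HH at b4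
      rw [rhc_RG]
      linarith [quad2 x hx, quad2 x' hx', quad1 χ hχ]
  have z0 : |(0 : ℝ)| ≤ π := by rw [abs_zero]; exact hπ.le
  refine ⟨ρs, c₂, hρs0, hρs1, hc0, ?_, ?_, h3, ?_, h5, ?_⟩
  · intro δ x _ _ _
    rw [rhc_RG, rhc_RG, RG_refl hy.le]
  · intro δ x h0 h1 hx
    rw [max_eq_right (bb_nonpos h0 h1), rhc_RG]
    have e := RG_refl hy.le x (1 - δ)
    rw [sub_sub_cancel] at e
    have k1 := RG_upper y hx (δ := 1 - δ) (by linarith) (by linarith)
    have k2 := RG_pi_le hy.le (δ := 1 - δ) (by linarith)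
    have k3 : bb (1 - δ) 0 ≤ bet := bb_le_bet
    linarith
  · intro δ x h0 h1 hx
    rw [max_eq_left (bb_nonneg h0 h1)]
    have k := h5 δ 0 0 x h0 h1 z0 z0 hx
    rw [abs_zero, min_eq_left hρs0.le] at k
    linarith
  · intro ρ hρ
    obtain ⟨κ, hκ, h⟩ := HH_gap hy hρ
    refine ⟨κ, hκ, ?_⟩
    intro δ x x' χ h0 h1 hx hx' hχ hd
    exact (hupper δ x x' χ h0 h1 hx hx' hχ).trans (h δ h0 h1 hd)

end Pool.Agent.Y317.CB
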