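import Pool.Agent.Y472.A.Defs

/-!
# Three strands: highest weight vectors and slices
-/

set_option autoImplicit false
set_option linter.all false

namespace Pool.Agent.Y317.CB

open Finset Pool.Agent.Y472

variable {N : ℕ} {w l : ℂ}

theorem w_ne (h : Rt N w) : w ≠ 0 := by
  rintro rfl
  have := h.nrm
  simp at this

theorem lb_ne (h : Rt N w) (hl : Gl l) (k : ℤ) : lb w l k ≠ 0 := by
  unfold lb cb
  intro h0
  have hy : l * w ^ k ≠ 0 := mul_ne_zero hl.ne (zpow_ne_zero _ (w_ne h))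
  have h1 : (l * w ^ k) * (l * w ^ k) = 1 := by
    have h2 : l * w ^ k = (l * w ^ k)⁻¹ := sub_eq_zero.1 h0
    have h3 : (l * w ^ k) * (l * w ^ k)⁻¹ = 1 := mul_inv_cancel₀ hy
    rwa [← h2] at h3
  have h2 := congrArg norm h1
  rw [norm_mul, norm_mul, norm_zpow, h.nrm, one_zpow, mul_one, norm_one] at h2
  rcases mul_self_eq_one_iff.1 h2 with h3 | h3
  · exact hl.nrm h3
  · have := norm_nonneg l
    linarith

theorem KK_ne (hw : w ≠ 0) (hl : l ≠ 0) (a : ℕ) : KK w l a ≠ 0 :=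
  mul_ne_zero hl (zpow_ne_zero _ hw)

theorem qi_zero : qi w 0 = 0 := by
  simp [qi, cb]

theorem zp1 (hw : w ≠ 0) (a : ℤ) : w ^ (-1 - a) = w⁻¹ * (w ^ a)⁻¹ := by
  rw [zpow_sub₀ hw, zpow_neg_one, div_eq_mul_inv]

theorem zp2 (hw : w ≠ 0) (a : ℤ) : w ^ (-1 - 2 * a) = w⁻¹ * (w ^ a)⁻¹ * (w ^ a)⁻¹ := by
  rw [zpow_sub₀ hw, two_mul, zpow_add₀ hw, zpow_neg_one, div_eq_mul_inv, mul_inv, mul_assoc]

theorem KK_succ (hw : w ≠ 0) (a : ℕ) : KK w l (a + 1) = (w ^ 2)⁻¹ * KK w l a := by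
  unfold KK
  have : (-1 - 2 * ((a + 1 : ℕ) : ℤ)) = -2 + (-1 - 2 * (a : ℤ)) := by push_cast; ring
  rw [this, zpow_add₀ hw, zpow_neg]
  have e : w ^ (2 : ℤ) = w ^ 2 := by norm_cast
  rw [e]
  ring

theorem KK_inv_succ (hw : w ≠ 0) (a : ℕ) : (KK w l (a + 1))⁻¹ = w ^ 2 * (KK w l a)⁻¹ := by
  rw [KK_succ hw, mul_inv, inv_inv]

/-- the commutator on one strand -/
theorem one_comm (hw : w ≠ 0) (hl : l ≠ 0) (a : ℕ) :
    lb w l (-1 - a) * qi w ((a + 1 : ℕ) : ℤ) - qi w a * lb w l (-a) =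
      (w - w⁻¹) * (KK w l a - (KK w l a)⁻¹) := by
  unfold lb qi cb KK
  push_cast
  have hu : w ^ (a : ℤ) ≠ 0 := zpow_ne_zero _ hw
  rw [zp1 hw, zp2 hw, zpow_add₀ hw, zpow_one, zpow_neg]
  generalize w ^ (a : ℤ) = u at *
  field_simp
  ring

theorem qlb (a : ℕ) (y : ℕ → ℂ) :
    qi w a * (lb w l (-1 - ((a - 1 : ℕ) : ℤ)) * y (a - 1 + 1)) = qi w a * lb w l (-a) * y a := by
  rcases a with _ | a
  · have : qi w ((0 : ℕ) : ℤ) = 0 := qi_zero
    rw [this]; simp
  · rw [Nat.add_sub_cancel]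
    have : (-1 - (a : ℤ)) = -((a + 1 : ℕ) : ℤ) := by push_cast; ring
    rw [this]
    ring

theorem qKK (hw : w ≠ 0) (b : ℕ) : qi w b * KK w l (b - 1) = qi w b * (w ^ 2 * KK w l b) := by
  rcases b with _ | b
  · have : qi w ((0 : ℕ) : ℤ) = 0 := qi_zero
    rw [this]; simp
  · rw [Nat.add_sub_cancel, KK_succ hw]
    have : w ^ 2 ≠ 0 := pow_ne_zero _ hw
    field_simp

theorem E2_apply (x : V2) (a b : ℕ) : E2 w l x a b =
    lb w l (-1 - a) * KK w l b * x (a + 1) b + lb w l (-1 - b) * x a (b + 1) := rfl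

theorem F2_apply (x : V2) (a b : ℕ) : F2 w l x a b =
    qi w a * x (a - 1) b + (KK w l a)⁻¹ * qi w b * x a (b - 1) := rfl

theorem K2_apply (x : V2) (a b : ℕ) : K2 w l x a b = KK w l a * KK w l b * x a b := rfl

theorem E3_apply (x : V3) (a b c : ℕ) : E3 w l x a b c =
    lb w l (-1 - a) * KK w l b * KK w l c * x (a + 1) b c + E2 w l (x a) b c := rfl

theorem F3_apply (x : V3) (a b c : ℕ) : F3 w l x a b c =
    qi w a * x (a - 1) b c + (KK w l a)⁻¹ * F2 w l (x a) b c := rfl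

theorem thA_succ (a : ℕ) (m : V2) (b c : ℕ) : thA w l (a + 1) m b c =
    -(lb w l (-1 - a) * KK w l b * KK w l c)⁻¹ * E2 w l (thA w l a m) b c := rfl

/-- the commutator on two strands -/
theorem comm2 (hw : w ≠ 0) (hl : l ≠ 0) (x : V2) (a b : ℕ) :
    E2 w l (F2 w l x) a b - F2 w l (E2 w l x) a b =
      (w - w⁻¹) * (KK w l a * KK w l b - (KK w l a * KK w l b)⁻¹) * x a b := by
  have h1 := one_comm hw hl a
  have h2 := one_comm hw hl b
  have h3 := qlb (w := w) (l := l) a (fun t => x t b)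
  have h4 := qlb (w := w) (l := l) b (fun t => x a t)
  have h5 := qKK (l := l) hw b
  have h6 := KK_inv_succ (l := l) hw a
  simp only [E2_apply, F2_apply, Nat.add_sub_cancel] at *
  rw [mul_inv, h6]
  have e1 : KK w l a * (KK w l a)⁻¹ = 1 := mul_inv_cancel₀ (KK_ne hw hl a)
  have e2 : KK w l b * (KK w l b)⁻¹ = 1 := mul_inv_cancel₀ (KK_ne hw hl b)
  linear_combination (KK w l b * x a b) * h1 + ((KK w l a)⁻¹ * x a b) * h2 - KK w l b * h3 -
    (KK w l a)⁻¹ * h4 - ((KK w l a)⁻¹ * lb w l (-1 - a) * x (a + 1) (b - 1)) * h5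

theorem F2_K2 (hw : w ≠ 0) (hl : l ≠ 0) (x : V2) (a b : ℕ) :
    F2 w l (K2 w l x) a b = w ^ 2 * (KK w l a * KK w l b) * F2 w l x a b := by
  have h5 := qKK (l := l) hw b
  have h6 := qKK (l := l) hw a
  simp only [F2_apply, K2_apply]
  have e1 : KK w l a * (KK w l a)⁻¹ = 1 := mul_inv_cancel₀ (KK_ne hw hl a)
  linear_combination (KK w l b * x (a - 1) b) * h6 +
    (KK w l a * (KK w l a)⁻¹ * x a (b - 1)) * h5

/-- the commutator on three strands -/
theorem comm3 (hw : w ≠ 0) (hl : l ≠ 0) (x : V3) (a b c : ℕ) :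
    E3 w l (F3 w l x) a b c - F3 w l (E3 w l x) a b c =
      (w - w⁻¹) * (KK w l a * KK w l b * KK w l c - (KK w l a * KK w l b * KK w l c)⁻¹) *
        x a b c := by
  have h1 := one_comm hw hl a
  have h2 := comm2 hw hl (x a) b c
  have h3 := qlb (w := w) (l := l) a (fun t => x t b c)
  have h6 := KK_inv_succ (l := l) hw a
  have h7 := F2_K2 hw hl (x (a + 1)) b c
  have e1 : E2 w l (F3 w l x a) b c =
      qi w a * E2 w l (x (a - 1)) b c + (KK w l a)⁻¹ * E2 w l (F2 w l (x a)) b c := by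
    have : F3 w l x a = qi w a • x (a - 1) + (KK w l a)⁻¹ • F2 w l (x a) := by
      funext b c
      rfl
    rw [this, map_add, map_smul, map_smul]
    rfl
  have e2 : F2 w l (E3 w l x a) b c =
      lb w l (-1 - a) * F2 w l (K2 w l (x (a + 1))) b c + F2 w l (E2 w l (x a)) b c := by
    have : E3 w l x a = lb w l (-1 - a) • K2 w l (x (a + 1)) + E2 w l (x a) := by
      funext b c
      show lb w l (-1 - a) * KK w l b * KK w l c * x (a + 1) b c + E2 w l (x a) b c =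
        lb w l (-1 - a) * (KK w l b * KK w l c * x (a + 1) b c) + E2 w l (x a) b c
      ring
    rw [this, map_add, map_smul]
    rfl
  rw [E3_apply, F3_apply (E3 w l x), e1, e2, h7, F3_apply, E3_apply]
  rw [Nat.add_sub_cancel, h6]
  simp only [mul_inv] at h2 ⊢
  have f1 : KK w l a * (KK w l a)⁻¹ = 1 := mul_inv_cancel₀ (KK_ne hw hl a)
  linear_combination (KK w l b * KK w l c * x a b c) * h1 + (KK w l a)⁻¹ * h2 -
    (KK w l b * KK w l c) * h3

/-! ### Homogeneous vectors -/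

theorem E2_T2 (x : V2) (hx : x ∈ T2 N) : E2 w l x ∈ T2 N := by
  intro a b h
  rw [E2_apply, hx (a + 1) b (by omega), hx a (b + 1) (by omega), mul_zero, mul_zero, add_zero]

theorem E2_hom {x : V2} {D : ℕ} (hx : ∀ a b, a + b ≠ D → x a b = 0) :
    ∀ a b, a + b + 1 ≠ D → E2 w l x a b = 0 := by
  intro a b h
  rw [E2_apply, hx (a + 1) b (by omega), hx a (b + 1) (by omega), mul_zero, mul_zero, add_zero]

theorem thA_hom {m : V2} {D : ℕ} (hm : ∀ a b, a + b ≠ D → m a b = 0) (a : ℕ) :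
    ∀ b c, a + b + c ≠ D → thA w l a m b c = 0 := by
  induction a with
  | zero => intro b c h; exact hm b c (by omega)
  | succ a ih =>
    intro b c h
    rw [thA_succ, E2_apply, ih (b + 1) c (by omega), ih b (c + 1) (by omega), mul_zero, mul_zero,
      add_zero, mul_zero]

theorem F3_hom {x : V3} {D : ℕ} (hx : ∀ a b c, a + b + c ≠ D → x a b c = 0) :
    ∀ a b c, a + b + c ≠ D + 1 → F3 w l x a b c = 0 := by
  intro a b c h
  rw [F3_apply, F2_apply]
  have h0 : qi w ((0 : ℕ) : ℤ) = 0 := qi_zero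
  have e1 : qi w a * x (a - 1) b c = 0 := by
    rcases a with _ | a
    · rw [h0, zero_mul]
    · rw [Nat.add_sub_cancel, hx a b c (by omega), mul_zero]
  have e2 : qi w b * x a (b - 1) c = 0 := by
    rcases b with _ | b
    · rw [h0, zero_mul]
    · rw [Nat.add_sub_cancel, hx a b c (by omega), mul_zero]
  have e3 : (KK w l b)⁻¹ * qi w c * x a b (c - 1) = 0 := by
    rcases c with _ | c
    · rw [h0, mul_zero, zero_mul]
    · rw [Nat.add_sub_cancel, hx a b c (by omega), mul_zero]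
  rw [e1, e2, e3, add_zero, mul_zero, add_zero]

theorem F3_iter_hom {x : V3} {D : ℕ} (hx : ∀ a b c, a + b + c ≠ D → x a b c = 0) (t : ℕ) :
    ∀ a b c, a + b + c ≠ D + t → ((F3 w l)^[t] x) a b c = 0 := by
  induction t with
  | zero => exact hx
  | succ t ih =>
    intro a b c h
    rw [Function.iterate_succ_apply']
    exact F3_hom (D := D + t) ih a b c (by omega)

theorem KKK (hw : w ≠ 0) {a b c D : ℕ} (h : a + b + c = D) :
    KK w l a * KK w l b * KK w l c = l ^ 3 * w ^ (-3 - 2 * (D : ℤ)) := by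
  subst h
  unfold KK
  have e : (-3 - 2 * ((a + b + c : ℕ) : ℤ)) =
      (-1 - 2 * (a : ℤ)) + (-1 - 2 * (b : ℤ)) + (-1 - 2 * (c : ℤ)) := by push_cast; ring
  rw [e, zpow_add₀ hw, zpow_add₀ hw]
  ring

theorem coef_step (hw : w ≠ 0) (hl : l ≠ 0) (D t : ℕ) :
    qi w t * cb (l ^ 3 * w ^ (-2 - 2 * (D : ℤ) - t)) +
      (w - w⁻¹) * (l ^ 3 * w ^ (-3 - 2 * ((D + t : ℕ) : ℤ)) -
        (l ^ 3 * w ^ (-3 - 2 * ((D + t : ℕ) : ℤ)))⁻¹) =
      qi w (t + 1) * cb (l ^ 3 * w ^ (-2 - 2 * (D : ℤ) - (t + 1))) := by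
  unfold qi cb
  have hu : w ^ (t : ℤ) ≠ 0 := zpow_ne_zero _ hw
  have hv : l ^ 3 * w ^ (-2 - 2 * (D : ℤ)) ≠ 0 := mul_ne_zero (pow_ne_zero _ hl) (zpow_ne_zero _ hw)
  have e1 : w ^ (-2 - 2 * (D : ℤ) - t) = w ^ (-2 - 2 * (D : ℤ)) * (w ^ (t : ℤ))⁻¹ := by
    rw [zpow_sub₀ hw, div_eq_mul_inv]
  have e2 : w ^ (-2 - 2 * (D : ℤ) - (t + 1)) =
      w ^ (-2 - 2 * (D : ℤ)) * (w ^ (t : ℤ))⁻¹ * w⁻¹ := by
    have : (-2 - 2 * (D : ℤ) - (t + 1)) = (-2 - 2 * (D : ℤ) - t) - 1 := by ring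
    rw [this, zpow_sub₀ hw, zpow_one, e1, div_eq_mul_inv]
  have e3 : w ^ (-3 - 2 * ((D + t : ℕ) : ℤ)) =
      w ^ (-2 - 2 * (D : ℤ)) * (w ^ (t : ℤ))⁻¹ * (w ^ (t : ℤ))⁻¹ * w⁻¹ := by
    have : (-3 - 2 * ((D + t : ℕ) : ℤ)) = (-2 - 2 * (D : ℤ) - t) - t - 1 := by push_cast; ring
    rw [this, zpow_sub₀ hw, zpow_one, zpow_sub₀ hw, e1, div_eq_mul_inv, div_eq_mul_inv]
  have e4 : w ^ ((t : ℤ) + 1) = w ^ (t : ℤ) * w := by rw [zpow_add₀ hw, zpow_one]
  rw [e1, e2, e3, e4]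
  have f1 : l ^ 3 * (w ^ (-2 - 2 * (D : ℤ)) * (w ^ (t : ℤ))⁻¹) =
      (l ^ 3 * w ^ (-2 - 2 * (D : ℤ))) * (w ^ (t : ℤ))⁻¹ := by ring
  have f2 : l ^ 3 * (w ^ (-2 - 2 * (D : ℤ)) * (w ^ (t : ℤ))⁻¹ * w⁻¹) =
      (l ^ 3 * w ^ (-2 - 2 * (D : ℤ))) * (w ^ (t : ℤ))⁻¹ * w⁻¹ := by ring
  have f3 : l ^ 3 * (w ^ (-2 - 2 * (D : ℤ)) * (w ^ (t : ℤ))⁻¹ * (w ^ (t : ℤ))⁻¹ * w⁻¹) =
      (l ^ 3 * w ^ (-2 - 2 * (D : ℤ))) * (w ^ (t : ℤ))⁻¹ * (w ^ (t : ℤ))⁻¹ * w⁻¹ := by ring
  rw [f1, f2, f3]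
  generalize l ^ 3 * w ^ (-2 - 2 * (D : ℤ)) = v at *
  generalize w ^ (t : ℤ) = u at *
  field_simp
  ring

theorem E3_F3 (hw : w ≠ 0) (hl : l ≠ 0) {x : V3} {D : ℕ}
    (hx : ∀ a b c, a + b + c ≠ D → x a b c = 0) (h0 : E3 w l x = 0) (t : ℕ) :
    E3 w l ((F3 w l)^[t + 1] x) =
      (qi w (t + 1) * cb (l ^ 3 * w ^ (-2 - 2 * (D : ℤ) - (t + 1)))) • (F3 w l)^[t] x := by
  have key : ∀ t : ℕ, ∀ a b c, E3 w l ((F3 w l)^[t + 1] x) a b c =
      F3 w l (E3 w l ((F3 w l)^[t] x)) a b c +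
        (w - w⁻¹) * (l ^ 3 * w ^ (-3 - 2 * ((D + t : ℕ) : ℤ)) -
        (l ^ 3 * w ^ (-3 - 2 * ((D + t : ℕ) : ℤ)))⁻¹) * ((F3 w l)^[t] x) a b c := by
    intro t a b c
    rw [Function.iterate_succ_apply']
    have h1 := comm3 hw hl ((F3 w l)^[t] x) a b c
    by_cases h : a + b + c = D + t
    · rw [KKK hw h] at h1
      linear_combination h1
    · have h2 : ((F3 w l)^[t] x) a b c = 0 := F3_iter_hom hx t a b c h
      rw [h2, mul_zero] at h1 ⊢
      linear_combination h1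
  induction t with
  | zero =>
    funext a b c
    rw [key 0 a b c]
    have h1 : E3 w l ((F3 w l)^[0] x) = 0 := h0
    rw [h1, map_zero]
    have h2 := coef_step hw hl D 0
    have h3 : qi w ((0 : ℕ) : ℤ) = 0 := qi_zero
    rw [h3, zero_mul, zero_add] at h2
    show (0 : ℂ) + _ = _ * ((F3 w l)^[0] x) a b c
    rw [h2, zero_add]
  | succ t ih =>
    funext a b c
    rw [key (t + 1) a b c, ih, map_smul]
    have h2 := coef_step hw hl D (t + 1)
    show (qi w (t + 1) * cb (l ^ 3 * w ^ (-2 - 2 * (D : ℤ) - (t + 1)))) *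
      F3 w l ((F3 w l)^[t] x) a b c + _ = _ * ((F3 w l)^[t + 1] x) a b c
    rw [← Function.iterate_succ_apply' (F3 w l) t x, ← h2]
    push_cast
    ring

/-! ### Highest weight vectors -/

theorem E3_Th (h : Rt N w) (hl : Gl l) (m : V2) : E3 w l (Th w l m) = 0 := by
  funext a b c
  rw [E3_apply]
  show lb w l (-1 - a) * KK w l b * KK w l c * thA w l (a + 1) m b c + E2 w l (thA w l a m) b c = 0
  rw [thA_succ]
  have h1 : lb w l (-1 - a) * KK w l b * KK w l c ≠ 0 :=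
    mul_ne_zero (mul_ne_zero (lb_ne h hl _) (KK_ne (w_ne h) hl.ne b)) (KK_ne (w_ne h) hl.ne c)
  have h2 : lb w l (-1 - a) * KK w l b * KK w l c *
    (lb w l (-1 - a) * KK w l b * KK w l c)⁻¹ = 1 := mul_inv_cancel₀ h1
  linear_combination (-E2 w l (thA w l a m) b c) * h2

theorem eq_Th (h : Rt N w) (hl : Gl l) (x : V3) (hx : E3 w l x = 0) : x = Th w l (x 0) := by
  have key : ∀ a, x a = thA w l a (x 0) := by
    intro a
    induction a with
    | zero => rfl
    | succ a ih =>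
      funext b c
      rw [thA_succ, ← ih]
      have h1 : lb w l (-1 - a) * KK w l b * KK w l c ≠ 0 :=
        mul_ne_zero (mul_ne_zero (lb_ne h hl _) (KK_ne (w_ne h) hl.ne b)) (KK_ne (w_ne h) hl.ne c)
      have h2 : lb w l (-1 - a) * KK w l b * KK w l c *
        (lb w l (-1 - a) * KK w l b * KK w l c)⁻¹ = 1 := mul_inv_cancel₀ h1
      have h3 : lb w l (-1 - a) * KK w l b * KK w l c * x (a + 1) b c + E2 w l (x a) b c = 0 := by
        have := congrFun (congrFun (congrFun hx a) b) c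
        rwa [E3_apply] at this
      apply mul_left_cancel₀ h1
      linear_combination h3 + (E2 w l (x a) b c) * h2
  funext a
  exact key a

theorem E2_diag (hw : w ≠ 0) (s : ℂ) (k : ℕ) (y : V2) (b c : ℕ) :
    E2 w l (fun b c => s * ((KK w l b)⁻¹ * (KK w l c)⁻¹) ^ k * y b c) b c =
      (s * (w ^ 2) ^ k) * ((KK w l b)⁻¹ * (KK w l c)⁻¹) ^ k * E2 w l y b c := by
  rw [E2_apply, E2_apply, KK_inv_succ hw, KK_inv_succ hw]
  have e1 : (w ^ 2 * (KK w l b)⁻¹ * (KK w l c)⁻¹) ^ k =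
      (w ^ 2) ^ k * ((KK w l b)⁻¹ * (KK w l c)⁻¹) ^ k := by rw [← mul_pow, mul_assoc]
  have e2 : ((KK w l b)⁻¹ * (w ^ 2 * (KK w l c)⁻¹)) ^ k =
      (w ^ 2) ^ k * ((KK w l b)⁻¹ * (KK w l c)⁻¹) ^ k := by
    rw [← mul_pow]; congr 1; ring
  rw [e1, e2]
  ring

theorem thA_form (hw : w ≠ 0) (m : V2) (a : ℕ) : ∃ s : ℂ, thA w l a m =
    fun b c => s * ((KK w l b)⁻¹ * (KK w l c)⁻¹) ^ a * ((E2 w l)^[a] m) b c := by
  induction a with
  | zero => exact ⟨1, by funext b c; show m b c = _; rw [pow_zero, one_mul, one_mul]; rfl⟩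
  | succ a ih =>
    obtain ⟨s, hs⟩ := ih
    refine ⟨-(lb w l (-1 - a))⁻¹ * (s * (w ^ 2) ^ a), ?_⟩
    funext b c
    rw [thA_succ, hs, E2_diag hw, Function.iterate_succ_apply', pow_succ]
    simp only [mul_inv]
    ring

theorem thA_T2 (m : V2) (hm : m ∈ T2 N) (a : ℕ) : thA w l a m ∈ T2 N := by
  induction a with
  | zero => exact hm
  | succ a ih =>
    intro b c h
    rw [thA_succ, E2_T2 _ ih b c h, mul_zero]

theorem Th_T3 (hN : S_NIL) (h : Rt N w) (hl : l ≠ 0) (m : V2) (hm : m ∈ T2 N) :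
    Th w l m ∈ T3 N := by
  intro a b c habc
  show thA w l a m b c = 0
  by_cases ha : N ≤ a
  · obtain ⟨s, hs⟩ := thA_form (l := l) (w_ne h) m a
    have h1 : (E2 w l)^[a] m = 0 := by
      obtain ⟨k, rfl⟩ := Nat.exists_eq_add_of_le ha
      rw [Nat.add_comm, Function.iterate_add_apply, (hN N w l h hl m hm).1]
      exact Function.iterate_fixed (map_zero _) k
    rw [hs, h1]
    simp
  · exact thA_T2 m hm a b c (by omega)

theorem F3_slice (x : V3) (t : ℕ) : ((F3 w l)^[t] x) 0 =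
    fun b c => (KK w l 0)⁻¹ ^ t * ((F2 w l)^[t] (x 0)) b c := by
  induction t with
  | zero => funext b c; simp
  | succ t ih =>
    funext b c
    rw [Function.iterate_succ_apply', Function.iterate_succ_apply', F3_apply, ih]
    have h0 : qi w ((0 : ℕ) : ℤ) = 0 := qi_zero
    rw [h0, zero_mul, zero_add]
    have e : (fun b c => (KK w l 0)⁻¹ ^ t * ((F2 w l)^[t] (x 0)) b c) =
      ((KK w l 0)⁻¹ ^ t) • ((F2 w l)^[t] (x 0)) := rfl
    rw [e, map_smul]
    show (KK w l 0)⁻¹ * ((KK w l 0)⁻¹ ^ t * F2 w l ((F2 w l)^[t] (x 0)) b c) = _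
    rw [pow_succ]
    ring

theorem th : S_TH := by
  intro hN N w l h hl
  refine ⟨E3_Th h hl, fun m => rfl, eq_Th h hl, Th_T3 hN h hl.ne, fun t x => F3_slice x t, ?_⟩
  intro m D t hm
  exact E3_F3 (w_ne h) hl.ne (x := Th w l m) (fun a b c habc => thA_hom hm a b c habc)
    (E3_Th h hl m) t

/-! ### Good operators -/

/-- the inverse of the weight -/
noncomputable def K2i (w l : ℂ) : V2 →ₗ[ℂ] V2 where
  toFun x a b := (KK w l a * KK w l b)⁻¹ * x a b
  map_add' x y := by funext a b; simp only [Pi.add_apply]; ring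
  map_smul' c x := by funext a b; simp only [Pi.smul_apply, smul_eq_mul, RingHom.id_apply]; ring

theorem K2_K2i (hw : w ≠ 0) (hl : l ≠ 0) (x : V2) : K2 w l (K2i w l x) = x := by
  funext a b
  show KK w l a * KK w l b * ((KK w l a * KK w l b)⁻¹ * x a b) = x a b
  rw [← mul_assoc, mul_inv_cancel₀ (mul_ne_zero (KK_ne hw hl a) (KK_ne hw hl b)), one_mul]

theorem K2i_K2 (hw : w ≠ 0) (hl : l ≠ 0) (x : V2) : K2i w l (K2 w l x) = x := by
  funext a b
  show (KK w l a * KK w l b)⁻¹ * (KK w l a * KK w l b * x a b) = x a b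
  rw [← mul_assoc, inv_mul_cancel₀ (mul_ne_zero (KK_ne hw hl a) (KK_ne hw hl b)), one_mul]

theorem gd_K2i (hw : w ≠ 0) (hl : l ≠ 0) {A : V2 →ₗ[ℂ] V2} (hA : Gd N w l A) (x : V2) :
    A (K2i w l x) = K2i w l (A x) := by
  have h1 := hA.k (K2i w l x)
  rw [K2_K2i hw hl] at h1
  rw [h1, K2i_K2 hw hl]

theorem gd3 : S_GD3 := by
  intro N w l h hl A hA
  have hw := w_ne h
  constructor
  · refine ⟨?_, ?_, ?_⟩
    · intro x
      funext a b c
      have e1 : (fun a b => E3 w l x a b c) = KK w l c • E2 w l (fun a b => x a b c) +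
          lb w l (-1 - c) • (fun a b => x a b (c + 1)) := by
        funext a b
        show lb w l (-1 - a) * KK w l b * KK w l c * x (a + 1) b c +
          (lb w l (-1 - b) * KK w l c * x a (b + 1) c + lb w l (-1 - c) * x a b (c + 1)) =
          KK w l c * (lb w l (-1 - a) * KK w l b * x (a + 1) b c + lb w l (-1 - b) * x a (b + 1) c) +
            lb w l (-1 - c) * x a b (c + 1)
        ring
      show A (fun a b => E3 w l x a b c) a b = _
      rw [e1, map_add, map_smul, map_smul, hA.e]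
      show KK w l c * (lb w l (-1 - a) * KK w l b * A (fun a b => x a b c) (a + 1) b +
          lb w l (-1 - b) * A (fun a b => x a b c) a (b + 1)) +
          lb w l (-1 - c) * A (fun a b => x a b (c + 1)) a b =
        lb w l (-1 - a) * KK w l b * KK w l c * A (fun a b => x a b c) (a + 1) b +
          (lb w l (-1 - b) * KK w l c * A (fun a b => x a b c) a (b + 1) +
            lb w l (-1 - c) * A (fun a b => x a b (c + 1)) a b)
      ring
    · intro x
      funext a b c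
      have e1 : (fun a b => F3 w l x a b c) = F2 w l (fun a b => x a b c) +
          qi w c • K2i w l (fun a b => x a b (c - 1)) := by
        funext a b
        show qi w a * x (a - 1) b c + (KK w l a)⁻¹ * (qi w b * x a (b - 1) c +
            (KK w l b)⁻¹ * qi w c * x a b (c - 1)) =
          (qi w a * x (a - 1) b c + (KK w l a)⁻¹ * qi w b * x a (b - 1) c) +
            qi w c * ((KK w l a * KK w l b)⁻¹ * x a b (c - 1))
        rw [mul_inv]
        ring
      show A (fun a b => F3 w l x a b c) a b = _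
      rw [e1, map_add, map_smul, hA.f, gd_K2i hw hl hA]
      show (qi w a * A (fun a b => x a b c) (a - 1) b +
            (KK w l a)⁻¹ * qi w b * A (fun a b => x a b c) a (b - 1)) +
            qi w c * ((KK w l a * KK w l b)⁻¹ * A (fun a b => x a b (c - 1)) a b) =
        qi w a * A (fun a b => x a b c) (a - 1) b + (KK w l a)⁻¹ *
          (qi w b * A (fun a b => x a b c) a (b - 1) +
            (KK w l b)⁻¹ * qi w c * A (fun a b => x a b (c - 1)) a b)
      rw [mul_inv]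
      ring
    · intro x hx a b c habc
      show A (fun a b => x a b c) a b = 0
      by_cases hc : N ≤ c
      · have : (fun a b => x a b c) = 0 := by
          funext a b
          exact hx a b c (by omega)
        rw [this, map_zero]
        rfl
      · exact hA.t _ (fun a b hab => hx a b c (by omega)) a b (by omega)
  · refine ⟨?_, ?_, ?_⟩
    · intro x
      funext a
      have e1 : E3 w l x a = lb w l (-1 - a) • K2 w l (x (a + 1)) + E2 w l (x a) := by
        funext b c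
        show lb w l (-1 - a) * KK w l b * KK w l c * x (a + 1) b c + E2 w l (x a) b c =
          lb w l (-1 - a) * (KK w l b * KK w l c * x (a + 1) b c) + E2 w l (x a) b c
        ring
      show A (E3 w l x a) = _
      rw [e1, map_add, map_smul, hA.k, hA.e]
      funext b c
      show lb w l (-1 - a) * (KK w l b * KK w l c * A (x (a + 1)) b c) + E2 w l (A (x a)) b c =
        lb w l (-1 - a) * KK w l b * KK w l c * A (x (a + 1)) b c + E2 w l (A (x a)) b c
      ring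
    · intro x
      funext a
      have e1 : F3 w l x a = qi w a • x (a - 1) + (KK w l a)⁻¹ • F2 w l (x a) := by
        funext b c
        rfl
      show A (F3 w l x a) = _
      rw [e1, map_add, map_smul, map_smul, hA.f]
      rfl
    · intro x hx a b c habc
      show A (x a) b c = 0
      by_cases ha : N ≤ a
      · have : x a = 0 := by
          funext b c
          exact hx a b c (by omega)
        rw [this, map_zero]
        rfl
      · exact hA.t _ (fun b c hbc => hx a b c (by omega)) b c (by omega)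

theorem hatm : S_HATM := by
  intro hTH hN N w l h hl X Y hX hY
  obtain ⟨h1, h2, h3, h4, -, -⟩ := hTH hN N w l h hl
  have hX1 : ∀ Z : V3 →ₗ[ℂ] V3, Gd3 N w l Z → ∀ m, Z (Th w l m) = Th w l (hat w l Z m) := by
    intro Z hZ m
    apply h3
    rw [← hZ.e, h1, map_zero]
  refine ⟨?_, hX1 X hX, ?_⟩
  · apply LinearMap.ext
    intro m
    show X (Y (Th w l m)) 0 = X (Th w l (hat w l Y m)) 0
    rw [hX1 Y hY]
  · intro m hm b c hbc
    exact hX.t _ (h4 m hm) 0 b c (by omega)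

theorem x12 : S_X12 := by
  intro hTH hN hS N w l h hl
  have hw := w_ne h
  refine ⟨?_, fun A => rfl⟩
  apply LinearMap.ext
  intro m
  funext q s
  show F2 w l (E2 w l (fun a b => Th w l m a b s)) 0 q +
    (w * KK w l 0 * KK w l q + (w * KK w l 0 * KK w l q)⁻¹) * m q s = X12 w l m q s
  have e0 : w * KK w l 0 * KK w l q = l ^ 2 * w ^ (-1 - 2 * (q : ℤ)) := by
    unfold KK
    rw [zp2 hw, zp2 hw]
    simp only [Nat.cast_zero, zpow_zero, inv_one, mul_one]
    field_simp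
  have e1 : KK w l 0 * KK w l s = l ^ 2 * w ^ (-2 - 2 * (s : ℤ)) := by
    unfold KK
    have : (-2 - 2 * (s : ℤ)) = (-1 - 2 * ((0 : ℕ) : ℤ)) + (-1 - 2 * (s : ℤ)) := by
      push_cast; ring
    rw [this, zpow_add₀ hw]
    ring
  have e2 : F2 w l (E2 w l (fun a b => Th w l m a b s)) 0 q =
      -(l ^ 2 * w ^ (-2 - 2 * (s : ℤ)))⁻¹ * qi w q * lb w l (-1 - s) * m (q - 1) (s + 1) := by
    rw [F2_apply]
    have h0 : qi w ((0 : ℕ) : ℤ) = 0 := qi_zero
    rw [h0, zero_mul, zero_add]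
    rcases q with _ | q
    · rw [h0]
      simp
    · rw [Nat.add_sub_cancel, E2_apply]
      show (KK w l 0)⁻¹ * qi w ((q + 1 : ℕ) : ℤ) * (lb w l (-1 - ((0 : ℕ) : ℤ)) * KK w l q *
          thA w l (0 + 1) m q s + lb w l (-1 - q) * m (q + 1) s) = _
      rw [thA_succ]
      have h1 : lb w l (-1 - ((0 : ℕ) : ℤ)) * KK w l q ≠ 0 :=
        mul_ne_zero (lb_ne h hl _) (KK_ne hw hl.ne q)
      have h3 : thA w l 0 m = m := rfl
      rw [h3, E2_apply, ← e1]
      have k0 := KK_ne hw hl.ne 0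
      have ks := KK_ne hw hl.ne s
      have f1 : (lb w l (-1 - ((0 : ℕ) : ℤ)) * KK w l q) * (lb w l (-1 - ((0 : ℕ) : ℤ)) * KK w l q)⁻¹
        = 1 := mul_inv_cancel₀ h1
      have f2 : KK w l s * (KK w l s)⁻¹ = 1 := mul_inv_cancel₀ ks
      rw [mul_inv (lb w l (-1 - ((0 : ℕ) : ℤ)) * KK w l q) (KK w l s), mul_inv (KK w l 0) (KK w l s)]
      generalize lb w l (-1 - ((0 : ℕ) : ℤ)) * KK w l q = z at *
      linear_combination (-(KK w l 0)⁻¹ * qi w ((q + 1 : ℕ) : ℤ) * (KK w l s)⁻¹ *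
        (lb w l (-1 - q) * KK w l s * m (q + 1) s + lb w l (-1 - s) * m q (s + 1))) * f1 -
        ((KK w l 0)⁻¹ * qi w ((q + 1 : ℕ) : ℤ) * lb w l (-1 - q) * m (q + 1) s) * f2
  rw [e2, e0]
  show _ = uu w l q * m q s -
    (l ^ 2 * w ^ (-2 - 2 * (s : ℤ)))⁻¹ * qi w q * lb w l (-1 - s) * m (q - 1) (s + 1)
  unfold uu
  ring

end Pool.Agent.Y317.CB
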