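import Pool.Agent.Y472.E.Defs
import Pool.Agent.Y105.CB.Rho

/-!
# The integrals of `log (cosh y - cos θ)` (project CB3-E of helper472, RHOY)
-/

set_option autoImplicit false

namespace Pool.Agent.Y317.CB

open Filter Finset Topology MeasureTheory GapVol EvenVol EvenVol.LobIneq
open Pool.Agent.W711.HT Pool.Agent.W688.HT Pool.Agent.Y472 Pool.Agent.Y105.CB
open scoped Real

/-- `log (cosh y - cos θ)` -/
noncomputable def el (y θ : ℝ) : ℝ := Real.log (Real.cosh y - Real.cos θ)

lemma el_even (y θ : ℝ) : el y (-θ) = el y θ := by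
  unfold el
  rw [Real.cos_neg]

lemma el_per (y : ℝ) : Function.Periodic (el y) (2 * π) := by
  intro θ
  unfold el
  rw [Real.cos_add_two_pi]

lemma cc_norm (y θ : ℝ) : Real.cosh y - Real.cos θ =
    Real.exp y / 2 * ‖circleMap 0 1 θ - ((Real.exp (-y) : ℝ) : ℂ)‖ ^ 2 := by
  have h1 : (circleMap 0 1 θ - ((Real.exp (-y) : ℝ) : ℂ)).re = Real.cos θ - Real.exp (-y) := by
    simp [circleMap, Complex.exp_re]
  have h2 : (circleMap 0 1 θ - ((Real.exp (-y) : ℝ) : ℂ)).im = Real.sin θ := by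
    simp [circleMap, Complex.exp_im]
  rw [← Complex.normSq_eq_norm_sq, Complex.normSq_apply, h1, h2, Real.cosh_eq]
  have h3 : Real.exp y * Real.exp (-y) = 1 := by rw [← Real.exp_add]; simp
  have h4 := Real.sin_sq_add_cos_sq θ
  have h5 : Real.sin θ ^ 2 = 1 - Real.cos θ ^ 2 := by linarith
  have : Real.exp y / 2 * ((Real.cos θ - Real.exp (-y)) * (Real.cos θ - Real.exp (-y)) +
      Real.sin θ * Real.sin θ) = Real.exp y / 2 * (Real.cos θ ^ 2 + Real.sin θ ^ 2) -
      (Real.exp y * Real.exp (-y)) * Real.cos θ +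
      (Real.exp y * Real.exp (-y)) * Real.exp (-y) / 2 := by ring
  rw [this, h3, h5]
  ring

lemma cpos_of_sin {y θ : ℝ} (h : Real.sin θ ≠ 0) : 0 < Real.cosh y - Real.cos θ := by
  have h1 := Real.one_le_cosh y
  have h2 : Real.cos θ < 1 := by
    refine lt_of_le_of_ne (Real.cos_le_one θ) fun h3 => h ?_
    have h4 := Real.sin_sq_add_cos_sq θ
    rw [h3] at h4
    have h5 : Real.sin θ ^ 2 = 0 := by linarith
    exact pow_eq_zero_iff two_ne_zero |>.1 h5
  linarith

lemma el_eq {y θ : ℝ} (h : Real.sin θ ≠ 0) : el y θ = y - Real.log 2 +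
    2 * Real.log ‖circleMap 0 1 θ - ((Real.exp (-y) : ℝ) : ℂ)‖ := by
  have h1 := cpos_of_sin (y := y) h
  unfold el
  rw [cc_norm] at h1 ⊢
  have h2 : ‖circleMap 0 1 θ - ((Real.exp (-y) : ℝ) : ℂ)‖ ≠ 0 := by
    intro h3
    rw [h3] at h1
    simp at h1
  rw [Real.log_mul (by positivity) (pow_ne_zero 2 h2), Real.log_div (Real.exp_pos y).ne'
    two_ne_zero, Real.log_exp, Real.log_pow]
  push_cast
  ring

lemma el_int0 (y : ℝ) : IntervalIntegrable (el y) volume 0 (2 * π) := by
  have h1 : IntervalIntegrable (fun θ => Real.log ‖circleMap 0 1 θ -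
      ((Real.exp (-y) : ℝ) : ℂ)‖) volume 0 (2 * π) :=
    circleIntegrable_log_norm_sub_const (c := 0) (a := ((Real.exp (-y) : ℝ) : ℂ)) 1
  have h2 : IntervalIntegrable (fun θ => y - Real.log 2 + 2 * Real.log ‖circleMap 0 1 θ -
      ((Real.exp (-y) : ℝ) : ℂ)‖) volume 0 (2 * π) :=
    (intervalIntegrable_const).add (h1.const_mul 2)
  refine h2.congr_ae ?_
  apply ae_restrict_of_ae
  filter_upwards [sin_ae_ne] with θ h
  rw [el_eq h]

lemma el_int (y a b : ℝ) : IntervalIntegrable (el y) volume a b :=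
  (el_per y).intervalIntegrable₀ (by positivity) (el_int0 y) a b

lemma el_tot {y : ℝ} (hy : 0 ≤ y) : ∫ θ in (0:ℝ)..(2 * π), el y θ = 2 * π * (y - Real.log 2) := by
  have h1 : IntervalIntegrable (fun θ => Real.log ‖circleMap 0 1 θ -
      ((Real.exp (-y) : ℝ) : ℂ)‖) volume 0 (2 * π) :=
    circleIntegrable_log_norm_sub_const (c := 0) (a := ((Real.exp (-y) : ℝ) : ℂ)) 1
  have h2 : ∫ θ in (0:ℝ)..(2 * π), el y θ = ∫ θ in (0:ℝ)..(2 * π), (y - Real.log 2 +
      2 * Real.log ‖circleMap 0 1 θ - ((Real.exp (-y) : ℝ) : ℂ)‖) := by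
    apply intervalIntegral.integral_congr_ae
    filter_upwards [sin_ae_ne] with θ h _
    rw [el_eq h]
  have h3 : Real.circleAverage (Real.log ‖· - ((Real.exp (-y) : ℝ) : ℂ)‖) 0 1 = 0 := by
    rw [circleAverage_log_norm_sub_const_eq_posLog, Real.posLog_eq_zero_iff, Complex.norm_real,
      Real.norm_eq_abs, abs_abs, abs_of_pos (Real.exp_pos _)]
    exact Real.exp_le_one_iff.2 (by linarith)
  unfold Real.circleAverage at h3
  have h4 : ∫ θ in (0:ℝ)..(2 * π), Real.log ‖circleMap 0 1 θ -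
      ((Real.exp (-y) : ℝ) : ℂ)‖ = 0 := by
    rw [smul_eq_mul, mul_eq_zero] at h3
    rcases h3 with h3 | h3
    · exact absurd h3 (by positivity)
    · exact h3
  rw [h2, intervalIntegral.integral_add intervalIntegrable_const (h1.const_mul 2),
    intervalIntegral.integral_const_mul, h4, intervalIntegral.integral_const, smul_eq_mul]
  ring

/-- `∫_{x - a}^{x + a} log (cosh y - cos θ) dθ` -/
noncomputable def PR (y x a : ℝ) : ℝ := ∫ θ in (x - a)..(x + a), el y θ

/-- `∫_0^a log (1 - cos θ) dθ` -/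
noncomputable def Q0 (a : ℝ) : ℝ := ∫ θ in (0:ℝ)..a, el 0 θ

lemma PR_neg (y x a : ℝ) : PR y (-x) a = PR y x a := by
  unfold PR
  have h := intervalIntegral.integral_comp_neg (a := x - a) (b := x + a) (el y)
  simp only [el_even] at h
  rw [h]
  congr 1 <;> ring

lemma PR_per (y x a : ℝ) : PR y (x + 2 * π) a = PR y x a := by
  unfold PR
  have h := intervalIntegral.integral_comp_add_right (a := x - a) (b := x + a) (el y) (2 * π)
  simp only [el_per y _] at h
  rw [h]
  congr 1 <;> ring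

lemma PR_refl {y : ℝ} (hy : 0 ≤ y) (x a : ℝ) :
    PR y x (2 * π - a) = 4 * π * (y - Real.log 2) - PR y x a := by
  have h0 : ∀ t : ℝ, ∫ θ in t..(t + 2 * π), el y θ = 2 * π * (y - Real.log 2) := by
    intro t
    rw [(el_per y).intervalIntegral_add_eq t 0, zero_add, el_tot hy]
  unfold PR
  have h1 := h0 (x + a - 2 * π)
  have h2 := h0 (x - a)
  rw [show x + a - 2 * π + 2 * π = x + a by ring] at h1
  rw [← intervalIntegral.integral_add_adjacent_intervals (el_int y (x - a) (x + a))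
    (el_int y _ _)] at h2
  rw [show x - (2 * π - a) = x + a - 2 * π by ring, show x + (2 * π - a) = x - a + 2 * π by ring,
    ← intervalIntegral.integral_add_adjacent_intervals (el_int y (x + a - 2 * π) (x + a))
    (el_int y _ _), h1]
  linarith

lemma Q0_even (a : ℝ) : Q0 (-a) = -Q0 a := by
  unfold Q0
  have h := intervalIntegral.integral_comp_neg (a := 0) (b := a) (el 0)
  simp only [el_even] at h
  rw [neg_zero] at h
  rw [h, intervalIntegral.integral_symm]

lemma PR_zero_Q0 (a : ℝ) : PR 0 0 a = 2 * Q0 a := by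
  unfold PR
  rw [zero_sub, zero_add, ← intervalIntegral.integral_add_adjacent_intervals
    (el_int 0 (-a) 0) (el_int 0 0 a), intervalIntegral.integral_symm]
  have := Q0_even a
  unfold Q0 at this ⊢
  rw [this]
  ring

/-- `∫_{x - a}^{x + a}` in terms of `∫_0^a` -/
lemma PR_fold (y x a : ℝ) : PR y x a = ∫ θ in (0:ℝ)..a, (el y (x + θ) + el y (x - θ)) := by
  have i1 : IntervalIntegrable (fun θ => el y (x + θ)) volume 0 a := by
    have := (el_int y (x + 0) (x + a)).comp_add_left x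
    convert this using 2 <;> ring
  have i2 : IntervalIntegrable (fun θ => el y (x - θ)) volume 0 a := by
    have := (el_int y (x - 0) (x - a)).comp_sub_left x
    convert this using 2 <;> ring
  rw [intervalIntegral.integral_add i1 i2, intervalIntegral.integral_comp_add_left (el y) x,
    intervalIntegral.integral_comp_sub_left (el y) x, add_zero, sub_zero, add_comm,
    intervalIntegral.integral_add_adjacent_intervals (el_int y _ _) (el_int y _ _)]
  rfl

lemma Q0_refl (a : ℝ) : Q0 (2 * π - a) = -(2 * π * Real.log 2) - Q0 a := by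
  have h := PR_refl le_rfl 0 a
  rw [PR_zero_Q0, PR_zero_Q0] at h
  linarith

/-- the real integral of `rhc` -/
noncomputable def RG (y x δ : ℝ) : ℝ := PR y x (2 * π * δ) / (4 * π) - Q0 (2 * π * δ) / (2 * π)

lemma RG_refl {y : ℝ} (hy : 0 ≤ y) (x δ : ℝ) : RG y x (1 - δ) = y - RG y x δ := by
  unfold RG
  rw [show 2 * π * (1 - δ) = 2 * π - 2 * π * δ by ring, PR_refl hy, Q0_refl]
  field_simp
  ring

lemma RG_half {y : ℝ} (hy : 0 ≤ y) (x : ℝ) : RG y x (1 / 2) = y / 2 := by
  have h := RG_refl hy x (1 / 2)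
  rw [show (1 : ℝ) - 1 / 2 = 1 / 2 by norm_num] at h
  linarith

lemma RG_abs (y x δ : ℝ) : RG y |x| δ = RG y x δ := by
  rcases abs_choice x with h | h
  · rw [h]
  · rw [h]
    unfold RG
    rw [PR_neg]

lemma half_log {A B D n : ℝ} (hA : 0 < A) (hB : 0 < B) (hD : 0 < D) (hn : 0 ≤ n)
    (h : n ^ 2 = A * B) : Real.log (n / D) = (Real.log A + Real.log B) / 2 - Real.log D := by
  have hn' : n ≠ 0 := by
    rintro rfl
    have : 0 < A * B := mul_pos hA hB
    rw [← h] at this
    simp at this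
  rw [Real.log_div hn' hD.ne', ← Real.log_mul hA.ne' hB.ne', ← h, Real.log_pow]
  push_cast
  ring

lemma fold_eq (y x δ : ℝ) (F : ℝ → ℝ) (h : ∀ᵐ t : ℝ, F t =
    (el y (x + t) + el y (x - t)) / 2 - el 0 t) :
    ∫ s in (0:ℝ)..δ, F (2 * π * s) = RG y x δ := by
  rw [intervalIntegral.integral_comp_mul_left F (by positivity : (2 * π : ℝ) ≠ 0), mul_zero,
    smul_eq_mul]
  have h2 : ∫ t in (0:ℝ)..(2 * π * δ), F t =
      ∫ t in (0:ℝ)..(2 * π * δ), ((el y (x + t) + el y (x - t)) / 2 - el 0 t) := by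
    apply intervalIntegral.integral_congr_ae
    filter_upwards [h] with t ht _
    exact ht
  have i1 : IntervalIntegrable (fun θ => el y (x + θ)) volume 0 (2 * π * δ) := by
    have := (el_int y (x + 0) (x + 2 * π * δ)).comp_add_left x
    convert this using 2 <;> ring
  have i2 : IntervalIntegrable (fun θ => el y (x - θ)) volume 0 (2 * π * δ) := by
    have := (el_int y (x - 0) (x - 2 * π * δ)).comp_sub_left x
    convert this using 2 <;> ring
  rw [h2, intervalIntegral.integral_sub ((i1.add i2).div_const 2) (el_int 0 _ _),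
    intervalIntegral.integral_div, ← PR_fold]
  unfold RG Q0
  field_simp
  ring

lemma rhc_RG (y x δ : ℝ) : rhc δ (x + y * Complex.I) = RG y x δ := by
  unfold rhc
  refine fold_eq y x δ (fun t => Real.log (‖Complex.cos (x + y * Complex.I) -
    (Real.cos t : ℂ)‖ / (1 - Real.cos t))) ?_
  filter_upwards [sin_ae_ne, ae_add x, ae_sub x] with t h1 h2 h3
  have p1 := cpos_of_sin (y := 0) h1
  have p2 := cpos_of_sin (y := y) h2
  have p3 := cpos_of_sin (y := y) h3
  rw [Real.cosh_zero] at p1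
  have e := half_log p2 p3 p1 (norm_nonneg (Complex.cos (x + y * Complex.I) -
    (Real.cos t : ℂ))) ?_
  · rw [e]
    unfold el
    rw [Real.cosh_zero]
  · rw [← Complex.normSq_eq_norm_sq, Complex.normSq_apply]
    have c1 : Complex.cos (x + y * Complex.I) - (Real.cos t : ℂ) =
        ((Real.cos x * Real.cosh y - Real.cos t : ℝ) : ℂ) -
          ((Real.sin x * Real.sinh y : ℝ) : ℂ) * Complex.I := by
      rw [Complex.cos_add, Complex.cos_mul_I, Complex.sin_mul_I]
      push_cast
      ring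
    have c2 : (Complex.cos (x + y * Complex.I) - (Real.cos t : ℂ)).re =
        Real.cos x * Real.cosh y - Real.cos t := by
      rw [c1]
      simp only [Complex.sub_re, Complex.ofReal_re, Complex.re_ofReal_mul, Complex.I_re, mul_zero,
        sub_zero]
    have c3 : (Complex.cos (x + y * Complex.I) - (Real.cos t : ℂ)).im =
        -(Real.sin x * Real.sinh y) := by
      rw [c1]
      simp only [Complex.sub_im, Complex.ofReal_im, Complex.im_ofReal_mul, Complex.I_im, mul_one,
        zero_sub]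
    rw [c2, c3, Real.cos_add, Real.cos_sub]
    have s1 := Real.cosh_sq y
    have s2 : Real.sin x ^ 2 = 1 - Real.cos x ^ 2 := Real.sin_sq x
    have s3 : Real.sin t ^ 2 = 1 - Real.cos t ^ 2 := Real.sin_sq t
    have s4 : Real.sinh y ^ 2 = Real.cosh y ^ 2 - 1 := by linarith
    have l : (Real.cos x * Real.cosh y - Real.cos t) * (Real.cos x * Real.cosh y - Real.cos t) +
        -(Real.sin x * Real.sinh y) * -(Real.sin x * Real.sinh y) =
        (Real.cos x * Real.cosh y - Real.cos t) ^ 2 + Real.sin x ^ 2 * Real.sinh y ^ 2 := by ring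
    have r : (Real.cosh y - (Real.cos x * Real.cos t - Real.sin x * Real.sin t)) *
        (Real.cosh y - (Real.cos x * Real.cos t + Real.sin x * Real.sin t)) =
        (Real.cosh y - Real.cos x * Real.cos t) ^ 2 - Real.sin x ^ 2 * Real.sin t ^ 2 := by ring
    rw [l, r, s2, s3, s4]
    ring

lemma bb_RG (x δ : ℝ) : bb δ x = RG 0 (π - x) δ := by
  unfold bb
  refine fold_eq 0 (π - x) δ (fun t => Real.log (|Real.cos x + Real.cos t| /
    (1 - Real.cos t))) ?_
  filter_upwards [sin_ae_ne, ae_add (π - x), ae_sub (π - x)] with t h1 h2 h3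
  have p1 := cpos_of_sin (y := 0) h1
  have p2 := cpos_of_sin (y := 0) h2
  have p3 := cpos_of_sin (y := 0) h3
  rw [Real.cosh_zero] at p1 p2 p3
  have e := half_log p2 p3 p1 (abs_nonneg (Real.cos x + Real.cos t)) ?_
  · rw [e]
    unfold el
    rw [Real.cosh_zero]
  · rw [sq_abs, Real.cos_add, Real.cos_sub (π - x) t, Real.cos_pi_sub, Real.sin_pi_sub]
    have s2 : Real.sin x ^ 2 = 1 - Real.cos x ^ 2 := Real.sin_sq x
    have s3 : Real.sin t ^ 2 = 1 - Real.cos t ^ 2 := Real.sin_sq t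
    have r : (1 - (-Real.cos x * Real.cos t - Real.sin x * Real.sin t)) *
        (1 - (-Real.cos x * Real.cos t + Real.sin x * Real.sin t)) =
        (1 + Real.cos x * Real.cos t) ^ 2 - Real.sin x ^ 2 * Real.sin t ^ 2 := by ring
    rw [r, s2, s3]
    ring

lemma bb_abs (x δ : ℝ) : bb δ |x| = bb δ x := by
  unfold bb
  rw [Real.cos_abs]

lemma PR_mono (y : ℝ) {x1 x2 a : ℝ} (h1 : 0 ≤ x1) (h12 : x1 ≤ x2) (h2 : x2 ≤ π) (ha0 : 0 ≤ a)
    (ha : a ≤ π) : PR y x1 a + 2 * Real.sin a * (Real.cos x1 - Real.cos x2) / (Real.cosh y + 1) ≤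
    PR y x2 a := by
  have hY := Real.one_le_cosh y
  have i1 : IntervalIntegrable (fun t => el y (t + a)) volume x1 x2 := by
    have := (el_int y (x1 + a) (x2 + a)).comp_add_right a
    convert this using 2 <;> ring
  have i2 : IntervalIntegrable (fun t => el y (t - a)) volume x1 x2 := by
    have := (el_int y (x1 - a) (x2 - a)).comp_sub_right a
    convert this using 2 <;> ring
  have e1 : PR y x2 a - PR y x1 a = ∫ t in x1..x2, (el y (t + a) - el y (t - a)) := by
    rw [intervalIntegral.integral_sub i1 i2, intervalIntegral.integral_comp_add_right (el y) a,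
      intervalIntegral.integral_comp_sub_right (el y) a]
    unfold PR
    have k1 := intervalIntegral.integral_add_adjacent_intervals (el_int y (x1 - a) (x2 - a))
      (el_int y (x2 - a) (x2 + a))
    have k2 := intervalIntegral.integral_add_adjacent_intervals (el_int y (x1 - a) (x1 + a))
      (el_int y (x1 + a) (x2 + a))
    linarith
  have e2 : ∫ t in x1..x2, 2 * Real.sin a / (Real.cosh y + 1) * Real.sin t ≤
      ∫ t in x1..x2, (el y (t + a) - el y (t - a)) := by
    refine intervalIntegral.integral_mono_ae_restrict h12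
      (Continuous.intervalIntegrable (by fun_prop) _ _) (i1.sub i2) ?_
    have hm : ∀ᵐ t ∂(volume.restrict (Set.Icc x1 x2)), t ∈ Set.Icc x1 x2 :=
      ae_restrict_mem measurableSet_Icc
    filter_upwards [hm, ae_restrict_of_ae (ae_add a), ae_restrict_of_ae (ae_sub a)]
      with t ht h3 h4
    have h3' : Real.sin (t + a) ≠ 0 := by rwa [add_comm]
    have h4' : Real.sin (t - a) ≠ 0 := by
      rw [show t - a = -(a - t) by ring, Real.sin_neg]
      exact neg_ne_zero.2 h4
    have p3 := cpos_of_sin (y := y) h3'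
    have p4 := cpos_of_sin (y := y) h4'
    unfold el
    rw [← Real.log_div p3.ne' p4.ne']
    have h5 := Real.one_sub_inv_le_log_of_pos (div_pos p3 p4)
    refine le_trans ?_ h5
    rw [inv_div, one_sub_div p3.ne']
    have h6 : Real.cosh y - Real.cos (t + a) - (Real.cosh y - Real.cos (t - a)) =
        2 * Real.sin a * Real.sin t := by
      rw [Real.cos_add, Real.cos_sub]
      ring
    rw [h6]
    have h7 : 0 ≤ Real.sin t := Real.sin_nonneg_of_nonneg_of_le_pi (h1.trans ht.1) (ht.2.trans h2)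
    have h8 : 0 ≤ Real.sin a := Real.sin_nonneg_of_nonneg_of_le_pi ha0 ha
    have h9 : Real.cosh y - Real.cos (t + a) ≤ Real.cosh y + 1 := by
      linarith [Real.neg_one_le_cos (t + a)]
    rw [div_mul_eq_mul_div]
    exact div_le_div_of_nonneg_left (by positivity) p3 h9
  rw [intervalIntegral.integral_const_mul, integral_sin, ← e1] at e2
  have e3 : 2 * Real.sin a / (Real.cosh y + 1) * (Real.cos x1 - Real.cos x2) =
      2 * Real.sin a * (Real.cos x1 - Real.cos x2) / (Real.cosh y + 1) := by ring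
  rw [e3] at e2
  linarith

lemma RG_mono (y : ℝ) {x1 x2 δ : ℝ} (h1 : 0 ≤ x1) (h12 : x1 ≤ x2) (h2 : x2 ≤ π) (hδ0 : 0 ≤ δ)
    (hδ : δ ≤ 1 / 2) : RG y x1 δ + Real.sin (2 * π * δ) * (Real.cos x1 - Real.cos x2) /
      (2 * π * (Real.cosh y + 1)) ≤ RG y x2 δ := by
  have hπ := Real.pi_pos
  have hY := Real.one_le_cosh y
  have h := PR_mono y h1 h12 h2 (a := 2 * π * δ) (by positivity) (by nlinarith)
  unfold RG
  have h3 := div_le_div_of_nonneg_right h (by positivity : (0 : ℝ) ≤ 4 * π)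
  have h4 : (PR y x1 (2 * π * δ) + 2 * Real.sin (2 * π * δ) * (Real.cos x1 - Real.cos x2) /
      (Real.cosh y + 1)) / (4 * π) = PR y x1 (2 * π * δ) / (4 * π) +
      Real.sin (2 * π * δ) * (Real.cos x1 - Real.cos x2) / (2 * π * (Real.cosh y + 1)) := by
    field_simp
    ring
  rw [h4] at h3
  linarith

lemma sin_nn {δ : ℝ} (hδ0 : 0 ≤ δ) (hδ : δ ≤ 1 / 2) : 0 ≤ Real.sin (2 * π * δ) :=
  Real.sin_nonneg_of_nonneg_of_le_pi (by positivity) (by nlinarith [Real.pi_pos])

lemma RG_lower (y : ℝ) {x δ : ℝ} (hx : |x| ≤ π) (hδ0 : 0 ≤ δ) (hδ : δ ≤ 1 / 2) :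
    RG y 0 δ + Real.sin (2 * π * δ) * (1 - Real.cos x) / (2 * π * (Real.cosh y + 1)) ≤
      RG y x δ := by
  have h := RG_mono y le_rfl (abs_nonneg x) hx hδ0 hδ
  rwa [RG_abs, Real.cos_zero, Real.cos_abs] at h

lemma RG_upper (y : ℝ) {x δ : ℝ} (hx : |x| ≤ π) (hδ0 : 0 ≤ δ) (hδ : δ ≤ 1 / 2) :
    RG y x δ ≤ RG y π δ := by
  have h := RG_mono y (abs_nonneg x) hx le_rfl hδ0 hδ
  rw [RG_abs, Real.cos_abs, Real.cos_pi] at h
  have h1 := sin_nn hδ0 hδ
  have h2 := Real.one_le_cosh y
  have h3 : 0 ≤ Real.sin (2 * π * δ) * (Real.cos x - -1) / (2 * π * (Real.cosh y + 1)) := by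
    have : 0 ≤ Real.cos x - -1 := by linarith [Real.neg_one_le_cos x]
    have := Real.pi_pos
    positivity
  linarith

lemma bb_upper {x δ : ℝ} (hx : |x| ≤ π) (hδ0 : 0 ≤ δ) (hδ : δ ≤ 1 / 2) :
    bb δ x ≤ bb δ 0 - Real.sin (2 * π * δ) * (1 - Real.cos x) / (4 * π) := by
  have hx0 := abs_nonneg x
  have h := RG_mono 0 (x1 := π - |x|) (x2 := π) (δ := δ) (by linarith) (by linarith) le_rfl hδ0 hδ
  rw [Real.cos_pi_sub, Real.cos_abs, Real.cos_pi, Real.cosh_zero, ← bb_RG, bb_abs] at h
  have h2 := bb_RG 0 δ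
  rw [sub_zero] at h2
  rw [h2]
  have h3 : Real.sin (2 * π * δ) * (-Real.cos x - -1) / (2 * π * (1 + 1)) =
      Real.sin (2 * π * δ) * (1 - Real.cos x) / (4 * π) := by ring
  linarith

end Pool.Agent.Y317.CB
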